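import Mathlib
import Pool.Agent.Lib.MP_d57abb_nt.MR.ChC
import Pool.Agent.Lib.MP_d57abb_nt.GA.TA.Defs

/-!
# The data attached to a character, for a general completely additive label
-/

namespace Pool.Agent.Lib.MP_d57abb_nt.GA.MRG

variable [Pool.Agent.Lib.MP_d57abb_nt.GA.TA.Lab]

open Pool.Agent.Lib.MP_d57abb_nt.MR
open Pool.Agent.Lib.MP_d57abb_nt.GA.TA (Lab)
open Pool.Agent.Lib.MP_2a816b_nt (e)

private theorem Dtm_Om {p x : O} (hp : (N p).natAbs.Prime) (hx : 0 < N x) :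
    Lab.h (N (p * x)).natAbs = Lab.h (N p).natAbs + Lab.h (N x).natAbs := by
  rw [N_mul, Int.natAbs_mul, Lab.mul _ _ hp.ne_zero (Int.natAbs_ne_zero.2 hx.ne')]

theorem datumG {W : ℕ} [NeZero W] (h5 : 5 ∣ W) {z : ℂ} {q : ℕ} (hq0 : 0 < q) (hq : z ^ q = 1) (χ : MulChar (RW W) ℂ) (a₀ : RW W) :
    ∃ d : Dat, d.D = W ∧
      (∀ x : O, d.a x = z ^ (Lab.h (N x).natAbs) * psi χ a₀ (red W x)) ∧
      (∀ p : O, d.f p = z ^ Lab.h (N p).natAbs * χ (red W p)) ∧ ((∃ n : ℤ, d.t = n) → χ (red W om) = 1) := by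
  have hm : 0 < Nat.card (RW W)ˣ := Nat.card_pos
  have hz : ‖z‖ = 1 := by
    have h1 : ‖z‖ ^ q = 1 := by rw [← norm_pow, hq, norm_one]
    exact (pow_eq_one_iff_of_nonneg (norm_nonneg z) hq0.ne').1 h1
  have hchar : ∀ x : RW W, IsUnit x → χ x ^ Nat.card (RW W)ˣ = 1 := by
    rintro _ ⟨g, rfl⟩
    exact char_pow χ g
  obtain ⟨k, hk⟩ := exists_angle hm (hchar _ isUnit_red_om)
  have hm' : ((Nat.card (RW W)ˣ : ℕ) : ℝ) ≠ 0 := by
    rw [Nat.cast_ne_zero]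
    exact hm.ne'
  refine ⟨{
    a := fun x => z ^ (Lab.h (N x).natAbs) * psi χ a₀ (red W x)
    f := fun p => z ^ Lab.h (N p).natAbs * χ (red W p)
    t := (k : ℝ) / (Nat.card (RW W)ˣ : ℕ)
    D := W
    Q := q * Nat.card (RW W)ˣ
    D0 := Nat.pos_of_ne_zero (NeZero.ne W)
    D5 := h5
    Q0 := Nat.mul_pos hq0 hm
    a_le := ?_
    f_pow := ?_
    t_int := ?_
    mul := ?_
    unit := ?_ }, rfl, fun x => rfl, fun p => rfl, ?_⟩
  · intro x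
    rw [norm_mul, norm_pow, hz, one_pow, one_mul]
    exact norm_psi χ a₀ _
  · intro p hp
    rw [mul_pow, pow_mul, ← pow_mul z, mul_comm (Lab.h (N p).natAbs) q, pow_mul z, hq, one_pow, one_pow, one_mul,
      mul_comm q, pow_mul, hchar _ (isUnit_red_prime hp), one_pow]
  · refine ⟨(q : ℤ) * k, ?_⟩
    push_cast
    field_simp
  · intro p x hp hx
    rw [Dtm_Om hp.2.1 hx.N_pos, pow_add, map_mul,
      psi_mul χ a₀ (isUnit_red_prime hp)]
    ring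
  · intro x hx
    rw [N_mul, N_om, one_mul, map_mul, psi_mul χ a₀ isUnit_red_om, hk]
    ring
  · rintro ⟨n, hn⟩
    have h1 : (k : ℝ) / (Nat.card (RW W)ˣ : ℕ) = n := hn
    rw [← hk, h1, Pool.Agent.Lib.MP_2a816b_nt.e_neg, Pool.Agent.Lib.MP_2a816b_nt.e_int, inv_one]

end Pool.Agent.Lib.MP_d57abb_nt.GA.MRG
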