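import Mathlib
import Pool.Agent.Lib.MP_d57abb_nt.GA.MR.Dtm
import Pool.Agent.Lib.MP_d57abb_nt.MR.ChK

/-!
# Sums over sectors in residue classes modulo `W`, `5 ∣ W`, for a general label
-/

namespace Pool.Agent.Lib.MP_d57abb_nt.GA.MRG

variable [Pool.Agent.Lib.MP_d57abb_nt.GA.TA.Lab]

open Finset MeasureTheory
open Pool.Agent.Lib.MP_d57abb_nt.MR
open Pool.Agent.Lib.MP_d57abb_nt.GA.TA (Lab)

open Classical in
/-- for no character of the residue classes modulo `W`, trivial on the unit, `z ^ h (N p)` is the inverse of the value of the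
character for most prime elements -/
def NPr (z : ℂ) : Prop := ∀ W : ℕ, ∀ _ : NeZero W, 5 ∣ W → ∀ χ : MulChar (RW W) ℂ, χ (red W om) = 1 → ∀ B : ℝ, ∃ y : ℝ,
  B ≤ ∑ p ∈ (PP W y).filter (fun p => z ^ Lab.h (N p).natAbs * χ (red W p) ≠ 1), 1 / (N p : ℝ)

theorem np_datumG {W : ℕ} [hW : NeZero W] (h5 : 5 ∣ W) (χ : MulChar (RW W) ℂ) {z : ℂ} (hnp : NPr z) (d : Dat) (hD : d.D = W)
    (hf : ∀ p : O, d.f p = z ^ Lab.h (N p).natAbs * χ (red W p)) (ht : (∃ n : ℤ, d.t = n) → χ (red W om) = 1) : NP d := by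
  classical
  subst hD
  intro ht' B
  obtain ⟨y, hy⟩ := hnp d.D hW h5 χ (ht ht') B
  refine ⟨y, hy.trans (le_of_eq (Finset.sum_congr ?_ fun _ _ => rfl))⟩
  ext p
  rw [mem_filter, mem_filter, hf]

private theorem Sec_int (s : Finset O) (a : O → ℂ) (δ : ℝ) (P : O → Prop) [DecidablePred P] :
    IntervalIntegrable (fun θ : ℝ =>
      ‖∑ v ∈ s.filter (fun v => (θ ≤ An v ∧ An v < θ + δ) ∧ P v), a v‖ ^ 2) volume 0 per := by
  have h : (fun θ : ℝ => ‖∑ v ∈ s.filter (fun v => (θ ≤ An v ∧ An v < θ + δ) ∧ P v), a v‖ ^ 2) =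
      fun θ : ℝ => ‖∑ v ∈ (s.filter P).filter (fun v => θ ≤ An v ∧ An v < θ + δ), a v‖ ^ 2 := by
    funext θ
    have h1 : s.filter (fun v => (θ ≤ An v ∧ An v < θ + δ) ∧ P v) =
        (s.filter P).filter (fun v => θ ≤ An v ∧ An v < θ + δ) := by
      ext v
      simp only [Finset.mem_filter]
      tauto
    rw [h1]
  rw [h]
  exact sector_int _ _ _

private theorem Sec_comb {ι : Type*} [Fintype ι] (F : ℝ → ℂ) (G : ι → ℝ → ℂ)
    (h : ∀ θ, F θ = ∑ i, G i θ)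
    (hF : IntervalIntegrable (fun θ => ‖F θ‖ ^ 2) volume 0 per)
    (hG : ∀ i, IntervalIntegrable (fun θ => ‖G i θ‖ ^ 2) volume 0 per) (C : ℝ)
    (hC : ∀ i, ∫ θ in (0 : ℝ)..per, ‖G i θ‖ ^ 2 ≤ C) :
    ∫ θ in (0 : ℝ)..per, ‖F θ‖ ^ 2 ≤ (Fintype.card ι : ℝ) ^ 2 * C := by
  have hsum : IntervalIntegrable (fun θ => (Fintype.card ι : ℝ) * ∑ i, ‖G i θ‖ ^ 2)
      volume 0 per := by
    refine IntervalIntegrable.const_mul ?_ _
    have h1 := IntervalIntegrable.sum (μ := volume) (a := (0 : ℝ)) (b := per) Finset.univ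
      (f := fun i θ => ‖G i θ‖ ^ 2) (fun i _ => hG i)
    have h2 : (fun θ => ∑ i, ‖G i θ‖ ^ 2) = ∑ i, fun θ => ‖G i θ‖ ^ 2 := by
      funext θ
      rw [Finset.sum_apply]
    rw [h2]
    exact h1
  calc ∫ θ in (0 : ℝ)..per, ‖F θ‖ ^ 2 ≤
        ∫ θ in (0 : ℝ)..per, (Fintype.card ι : ℝ) * ∑ i, ‖G i θ‖ ^ 2 := by
        refine intervalIntegral.integral_mono_on per_pos.le hF hsum fun θ _ => ?_
        rw [h θ]
        have h1 : ‖∑ i, G i θ‖ ≤ ∑ i, ‖G i θ‖ := norm_sum_le _ _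
        have h2 : (∑ i, ‖G i θ‖) ^ 2 ≤ (Finset.univ : Finset ι).card * ∑ i, ‖G i θ‖ ^ 2 :=
          sq_sum_le_card_mul_sum_sq
        rw [Finset.card_univ] at h2
        exact (pow_le_pow_left₀ (norm_nonneg _) h1 2).trans h2
    _ = (Fintype.card ι : ℝ) * ∑ i, ∫ θ in (0 : ℝ)..per, ‖G i θ‖ ^ 2 := by
        rw [intervalIntegral.integral_const_mul, intervalIntegral.integral_finsetSum]
        exact fun i _ => hG i
    _ ≤ (Fintype.card ι : ℝ) * ∑ i : ι, C := by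
        refine mul_le_mul_of_nonneg_left (Finset.sum_le_sum fun i _ => hC i) (Nat.cast_nonneg _)
    _ = (Fintype.card ι : ℝ) ^ 2 * C := by
        rw [Finset.sum_const, Finset.card_univ, nsmul_eq_mul]
        ring

theorem MR5G (hS : ∀ d : Dat, NP d → SB d) {z : ℂ} {q : ℕ} (hq0 : 0 < q) (hq : z ^ q = 1) (hnp : NPr z)
    {W : ℕ} (hW : 0 < W) (h5 : 5 ∣ W) {ε : ℝ} (hε : 0 < ε) :
    ∃ A0 : ℝ, ∀ A : ℝ, A0 ≤ A → ∃ X0 : ℝ, ∀ X : ℝ, X0 ≤ X → ∀ c1 c2 : ℤ,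
      ∫ θ in (0 : ℝ)..per, ‖∑ v ∈ (V' X).filter (fun v => (θ ≤ An v ∧ An v < θ + A / X) ∧ v.re ≡ c1 [ZMOD W] ∧ v.im ≡ c2 [ZMOD W]),
        z ^ (Lab.h (N v).natAbs)‖ ^ 2 ≤ ε * A ^ 2 := by
  have hne : NeZero W := ⟨hW.ne'⟩
  have hdat : ∀ (χ : MulChar (RW W) ℂ) (a₀ : RW W), ∃ d : Dat, SB d ∧
      ∀ x : O, d.a x = z ^ (Lab.h (N x).natAbs) * psi χ a₀ (red W x) := by
    intro χ a₀
    obtain ⟨d, hD, ha, hf, ht⟩ := datumG h5 hq0 hq χ a₀
    exact ⟨d, hS d (np_datumG h5 χ hnp d hD hf ht), ha⟩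
  choose d hSB hda using hdat
  have hm : (0 : ℝ) < (Fintype.card (MulChar (RW W) ℂ) : ℝ) := by
    exact_mod_cast Fintype.card_pos
  have hε' : 0 < ε / (Fintype.card (MulChar (RW W) ℂ) : ℝ) ^ 2 := by positivity
  choose A0 hA0 using fun χ a₀ => hSB χ a₀ _ hε'
  refine ⟨∑ χ, ∑ a₀, |A0 χ a₀|, ?_⟩
  intro A hA
  have hA' : ∀ χ a₀, A0 χ a₀ ≤ A := by
    intro χ a₀
    refine (le_abs_self _).trans (le_trans ?_ hA)
    refine le_trans (Finset.single_le_sum (f := fun a₀ => |A0 χ a₀|)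
      (fun i _ => abs_nonneg _) (Finset.mem_univ a₀)) ?_
    exact Finset.single_le_sum (f := fun χ => ∑ a₀, |A0 χ a₀|)
      (fun i _ => Finset.sum_nonneg fun j _ => abs_nonneg _) (Finset.mem_univ χ)
  choose X0 hX0 using fun χ a₀ => hA0 χ a₀ A (hA' χ a₀)
  refine ⟨∑ χ, ∑ a₀, |X0 χ a₀|, ?_⟩
  intro X hX c1 c2
  have hX' : ∀ χ a₀, X0 χ a₀ ≤ X := by
    intro χ a₀
    refine (le_abs_self _).trans (le_trans ?_ hX)
    refine le_trans (Finset.single_le_sum (f := fun a₀ => |X0 χ a₀|)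
      (fun i _ => abs_nonneg _) (Finset.mem_univ a₀)) ?_
    exact Finset.single_le_sum (f := fun χ => ∑ a₀, |X0 χ a₀|)
      (fun i _ => Finset.sum_nonneg fun j _ => abs_nonneg _) (Finset.mem_univ χ)
  have h1 := Sec_comb (ι := MulChar (RW W) ℂ)
    (fun θ => ∑ v ∈ (V' X).filter (fun v => (θ ≤ An v ∧ An v < θ + A / X) ∧
        v.re ≡ c1 [ZMOD W] ∧ v.im ≡ c2 [ZMOD W]),
        z ^ (Lab.h (N v).natAbs))
    (fun χ θ => ∑ v ∈ (V' X).filter (fun v => θ ≤ An v ∧ An v < θ + A / X),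
      (d χ (red W ⟨c1, c2⟩)).a v) ?_ (Sec_int _ _ _ _) (fun χ => sector_int _ _ _)
    (ε / (Fintype.card (MulChar (RW W) ℂ) : ℝ) ^ 2 * A ^ 2)
    (fun χ => hX0 χ (red W ⟨c1, c2⟩) X (hX' χ _))
  · refine h1.trans (le_of_eq ?_)
    field_simp
  · intro θ
    show ∑ v ∈ (V' X).filter (fun v => (θ ≤ An v ∧ An v < θ + A / X) ∧
        v.re ≡ c1 [ZMOD W] ∧ v.im ≡ c2 [ZMOD W]),
        z ^ (Lab.h (N v).natAbs) =
      ∑ χ, ∑ v ∈ (V' X).filter (fun v => θ ≤ An v ∧ An v < θ + A / X),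
        (d χ (red W ⟨c1, c2⟩)).a v
    classical
    rw [Finset.sum_comm]
    have h2 : ∀ v : O, ∑ χ, (d χ (red W ⟨c1, c2⟩)).a v =
        if red W v = red W ⟨c1, c2⟩ then z ^ (Lab.h (N v).natAbs)
          else 0 := by
      intro v
      rw [Finset.sum_congr rfl fun χ _ => hda χ (red W ⟨c1, c2⟩) v, ← Finset.mul_sum, sum_psi]
      split_ifs
      · rw [mul_one]
      · rw [mul_zero]
    rw [Finset.sum_congr rfl fun v _ => h2 v, ← Finset.sum_filter]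
    refine Finset.sum_congr ?_ fun v _ => rfl
    ext v
    rw [Finset.mem_filter, Finset.mem_filter, Finset.mem_filter, red_eq_iff]
    tauto

end Pool.Agent.Lib.MP_d57abb_nt.GA.MRG
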