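import Mathlib
import Pool.Agent.Lib.MP_d57abb_nt.GA.MR.Sec

/-!
# Sums over sectors in residue classes, any modulus, for a general label
-/

namespace Pool.Agent.Lib.MP_d57abb_nt.GA.MRG

variable [Pool.Agent.Lib.MP_d57abb_nt.GA.TA.Lab]

open Finset MeasureTheory
open Pool.Agent.Lib.MP_d57abb_nt.MR
open Pool.Agent.Lib.MP_d57abb_nt.GA.TA (Lab)

private theorem SecL_int (s : Finset O) (a : O → ℂ) (δ : ℝ) (P : O → Prop) [DecidablePred P] :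
    IntervalIntegrable (fun θ : ℝ =>
      ‖∑ v ∈ s.filter (fun v => (θ ≤ An v ∧ An v < θ + δ) ∧ P v), a v‖ ^ 2) volume 0 per := by
  have h : (fun θ : ℝ => ‖∑ v ∈ s.filter (fun v => (θ ≤ An v ∧ An v < θ + δ) ∧ P v), a v‖ ^ 2) =
      fun θ : ℝ => ‖∑ v ∈ (s.filter P).filter (fun v => θ ≤ An v ∧ An v < θ + δ), a v‖ ^ 2 := by
    funext θ
    have h1 : s.filter (fun v => (θ ≤ An v ∧ An v < θ + δ) ∧ P v) =
        (s.filter P).filter (fun v => θ ≤ An v ∧ An v < θ + δ) := by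
      ext v
      simp only [Finset.mem_filter]
      tauto
    rw [h1]
  rw [h]
  exact sector_int _ _ _

private theorem SecL_comb {ι : Type*} [Fintype ι] (F : ℝ → ℂ) (G : ι → ℝ → ℂ)
    (h : ∀ θ, F θ = ∑ i, G i θ)
    (hF : IntervalIntegrable (fun θ => ‖F θ‖ ^ 2) volume 0 per)
    (hG : ∀ i, IntervalIntegrable (fun θ => ‖G i θ‖ ^ 2) volume 0 per) (C : ℝ)
    (hC : ∀ i, ∫ θ in (0 : ℝ)..per, ‖G i θ‖ ^ 2 ≤ C) :
    ∫ θ in (0 : ℝ)..per, ‖F θ‖ ^ 2 ≤ (Fintype.card ι : ℝ) ^ 2 * C := by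
  have hsum : IntervalIntegrable (fun θ => (Fintype.card ι : ℝ) * ∑ i, ‖G i θ‖ ^ 2)
      volume 0 per := by
    refine IntervalIntegrable.const_mul ?_ _
    have h1 := IntervalIntegrable.sum (μ := volume) (a := (0 : ℝ)) (b := per) Finset.univ
      (f := fun i θ => ‖G i θ‖ ^ 2) (fun i _ => hG i)
    have h2 : (fun θ => ∑ i, ‖G i θ‖ ^ 2) = ∑ i, fun θ => ‖G i θ‖ ^ 2 := by
      funext θ
      rw [Finset.sum_apply]
    rw [h2]
    exact h1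
  calc ∫ θ in (0 : ℝ)..per, ‖F θ‖ ^ 2 ≤
        ∫ θ in (0 : ℝ)..per, (Fintype.card ι : ℝ) * ∑ i, ‖G i θ‖ ^ 2 := by
        refine intervalIntegral.integral_mono_on per_pos.le hF hsum fun θ _ => ?_
        rw [h θ]
        have h1 : ‖∑ i, G i θ‖ ≤ ∑ i, ‖G i θ‖ := norm_sum_le _ _
        have h2 : (∑ i, ‖G i θ‖) ^ 2 ≤ (Finset.univ : Finset ι).card * ∑ i, ‖G i θ‖ ^ 2 :=
          sq_sum_le_card_mul_sum_sq
        rw [Finset.card_univ] at h2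
        exact (pow_le_pow_left₀ (norm_nonneg _) h1 2).trans h2
    _ = (Fintype.card ι : ℝ) * ∑ i, ∫ θ in (0 : ℝ)..per, ‖G i θ‖ ^ 2 := by
        rw [intervalIntegral.integral_const_mul, intervalIntegral.integral_finsetSum]
        exact fun i _ => hG i
    _ ≤ (Fintype.card ι : ℝ) * ∑ i : ι, C := by
        refine mul_le_mul_of_nonneg_left (Finset.sum_le_sum fun i _ => hC i) (Nat.cast_nonneg _)
    _ = (Fintype.card ι : ℝ) ^ 2 * C := by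
        rw [Finset.sum_const, Finset.card_univ, nsmul_eq_mul]
        ring

private theorem SecL_mod {W : ℕ} (hW : 0 < W) (x c : ℤ) (h : x ≡ c [ZMOD W]) :
    ∃ i0 : Fin 5, ∀ i : Fin 5, (x ≡ c + i * W [ZMOD ((5 * W : ℕ) : ℤ)] ↔ i = i0) := by
  obtain ⟨k, hk⟩ := Int.modEq_iff_dvd.mp h
  have hW0 : (W : ℤ) ≠ 0 := by exact_mod_cast hW.ne'
  refine ⟨⟨((-k) % 5).toNat, by omega⟩, ?_⟩
  intro i
  rw [Int.modEq_iff_dvd]
  have h1 : c + i * W - x = (k + i) * W := by linear_combination hk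
  have h2 : ((5 * W : ℕ) : ℤ) = 5 * (W : ℤ) := by push_cast; ring
  rw [h1, h2, mul_dvd_mul_iff_right hW0, Fin.ext_iff]
  have h3 := i.isLt
  constructor
  · intro h4
    show (i : ℕ) = ((-k) % 5).toNat
    omega
  · intro h4
    have h5 : (i : ℕ) = ((-k) % 5).toNat := h4
    omega

private theorem SecL_mod' {W : ℕ} (x c : ℤ) (i : Fin 5)
    (h : x ≡ c + i * W [ZMOD ((5 * W : ℕ) : ℤ)]) : x ≡ c [ZMOD W] := by
  rw [Int.modEq_iff_dvd] at h ⊢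
  obtain ⟨k, hk⟩ := h
  refine ⟨5 * k - i, ?_⟩
  push_cast at hk
  linear_combination hk

theorem MRGen (hS : ∀ d : Dat, NP d → SB d) {z : ℂ} {q : ℕ} (hq0 : 0 < q) (hq : z ^ q = 1) (hnp : NPr z)
    {W : ℕ} (hW : 0 < W) {ε : ℝ} (hε : 0 < ε) :
    ∃ A0 : ℝ, ∀ A : ℝ, A0 ≤ A → ∃ X0 : ℝ, ∀ X : ℝ, X0 ≤ X → ∀ c1 c2 : ℤ,
      ∫ θ in (0 : ℝ)..per, ‖∑ v ∈ (V' X).filter (fun v => (θ ≤ An v ∧ An v < θ + A / X) ∧ v.re ≡ c1 [ZMOD W] ∧ v.im ≡ c2 [ZMOD W]),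
        z ^ (Lab.h (N v).natAbs)‖ ^ 2 ≤ ε * A ^ 2 := by
  have hε' : 0 < ε / 625 := by positivity
  obtain ⟨A0, hA0⟩ := MR5G hS hq0 hq hnp (W := 5 * W) (by omega) ⟨W, rfl⟩ hε'
  refine ⟨A0, ?_⟩
  intro A hA
  obtain ⟨X0, hX0⟩ := hA0 A hA
  refine ⟨X0, ?_⟩
  intro X hX c1 c2
  have h1 := SecL_comb (ι := Fin 5 × Fin 5)
    (fun θ => ∑ v ∈ (V' X).filter (fun v => (θ ≤ An v ∧ An v < θ + A / X) ∧
        v.re ≡ c1 [ZMOD W] ∧ v.im ≡ c2 [ZMOD W]),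
        z ^ (Lab.h (N v).natAbs))
    (fun p θ => ∑ v ∈ (V' X).filter (fun v => (θ ≤ An v ∧ An v < θ + A / X) ∧
        v.re ≡ c1 + p.1 * W [ZMOD ((5 * W : ℕ) : ℤ)] ∧
        v.im ≡ c2 + p.2 * W [ZMOD ((5 * W : ℕ) : ℤ)]),
        z ^ (Lab.h (N v).natAbs)) ?_ (SecL_int _ _ _ _)
    (fun p => SecL_int _ _ _ _)
    (ε / 625 * A ^ 2) (fun p => hX0 X hX (c1 + p.1 * W) (c2 + p.2 * W))
  · refine h1.trans (le_of_eq ?_)
    rw [Fintype.card_prod, Fintype.card_fin]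
    push_cast
    ring
  · intro θ
    show ∑ v ∈ (V' X).filter (fun v => (θ ≤ An v ∧ An v < θ + A / X) ∧
        v.re ≡ c1 [ZMOD W] ∧ v.im ≡ c2 [ZMOD W]),
        z ^ (Lab.h (N v).natAbs) =
      ∑ p : Fin 5 × Fin 5, ∑ v ∈ (V' X).filter (fun v => (θ ≤ An v ∧ An v < θ + A / X) ∧
        v.re ≡ c1 + p.1 * W [ZMOD ((5 * W : ℕ) : ℤ)] ∧
        v.im ≡ c2 + p.2 * W [ZMOD ((5 * W : ℕ) : ℤ)]),
        z ^ (Lab.h (N v).natAbs)
    rw [Finset.sum_filter, Finset.sum_congr rfl fun p _ => Finset.sum_filter _ _, Finset.sum_comm]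
    refine Finset.sum_congr rfl fun v _ => ?_
    by_cases h2 : (θ ≤ An v ∧ An v < θ + A / X) ∧ v.re ≡ c1 [ZMOD W] ∧ v.im ≡ c2 [ZMOD W]
    · rw [if_pos h2]
      obtain ⟨h3, h4, h5⟩ := h2
      obtain ⟨i0, hi0⟩ := SecL_mod hW v.re c1 h4
      obtain ⟨j0, hj0⟩ := SecL_mod hW v.im c2 h5
      rw [Finset.sum_eq_single (i0, j0)]
      · rw [if_pos ⟨h3, (hi0 i0).mpr rfl, (hj0 j0).mpr rfl⟩]
      · intro p _ hp
        rw [if_neg]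
        rintro ⟨_, h6, h7⟩
        exact hp (Prod.ext ((hi0 p.1).mp h6) ((hj0 p.2).mp h7))
      · intro h6
        exact absurd (Finset.mem_univ _) h6
    · rw [if_neg h2]
      symm
      refine Finset.sum_eq_zero fun p _ => ?_
      rw [if_neg]
      rintro ⟨h3, h4, h5⟩
      exact h2 ⟨h3, SecL_mod' _ _ _ h4, SecL_mod' _ _ _ h5⟩

end Pool.Agent.Lib.MP_d57abb_nt.GA.MRG
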